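import Pool.Agent.R336.Bi.Main

/-!
# MP_e67e26_co: factorizations of bi-infinite words over sets of full combinatorial rank

Let `X` be a finite set of nonempty words with `r_c(X) = card X` and let `w` be a bi-infinite
word. Any two `X`-factorizations of `w` that both contain every element of `X` are
shift-equivalent. The same holds, more generally, if every element of `X` that occurs in the
second factorization occurs in the first one. (Paper proof by helper124.)
-/

set_option autoImplicit false

namespace Pool.Agent.Results.MP_e67e26_co.ShiftEquivalent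

/-- The factor `w(a) w(a+1) ... w(b-1)` of the bi-infinite word `w`. -/
def factor {A : Type*} (w : ℤ → A) (a b : ℤ) : List A :=
  (List.range (b - a).toNat).map (fun j : ℕ => w (a + j))

/-- `(x, k)` is an `X`-factorization of the bi-infinite word `w`. -/
def IsFactorization {A : Type*} (X : Set (List A)) (w : ℤ → A) (x : ℤ → List A) (k : ℤ → ℤ) :
    Prop :=
  StrictMono k ∧ ∀ i, x i ∈ X ∧ factor w (k i) (k (i + 1)) = x i

/-- The set `Y*` of the products of the words of `Y`. -/
def star {A : Type*} (Y : Set (List A)) : Set (List A) :=
  {u | ∃ l : List (List A), (∀ y ∈ l, y ∈ Y) ∧ l.flatten = u}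

/-- The combinatorial rank of `X`: the least number of elements of a set `Y` of nonempty words
with `X ⊆ Y*`. -/
noncomputable def combRank {A : Type*} (X : Set (List A)) : ℕ :=
  sInf {n | ∃ Y : Finset (List A), Y.card = n ∧ [] ∉ Y ∧ X ⊆ star (Y : Set (List A))}

open R336.Bi

theorem factor_eq_win {A : Type*} (w : ℤ → A) (a b : ℤ) :
    factor w a b = win w a (b - a).toNat := by
  apply List.ext_getElem
  · simp [factor]
  · intro j h1 h2
    rw [getElem_win]
    simp [factor]

theorem full_of_combRank {A : Type*} {X : Finset (List A)}
    (hr : combRank (X : Set (List A)) = X.card) :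
    Full (fun u : {u // u ∈ X} => u.1) := by
  classical
  intro m y hm hy hall
  rw [Fintype.card_coe, ← hr] at hm
  have : combRank (X : Set (List A)) ≤ (Finset.univ.image y).card := by
    apply Nat.sInf_le
    refine ⟨Finset.univ.image y, rfl, ?_, ?_⟩
    · intro hmem
      obtain ⟨j, -, hj⟩ := Finset.mem_image.mp hmem
      exact hy j hj
    · intro u hu
      obtain ⟨s, hs⟩ := hall ⟨u, hu⟩
      refine ⟨s.map y, ?_, ?_⟩
      · intro v hv
        obtain ⟨j, -, rfl⟩ := List.mem_map.mp hv
        simp
      · rw [← List.flatMap_def]
        exact hs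
  have h2 : (Finset.univ.image y).card ≤ m := by
    refine Finset.card_image_le.trans ?_
    simp
  omega

/-- Shift-equivalence of two factorizations: they are the same bi-infinite sequence of words up
to re-indexing. -/
def ShiftEq {A : Type*} (x y : ℤ → List A) : Prop := ∃ m : ℤ, ∀ i, y (i + m) = x i

/-- Full answer to Q1 (the negated form): if `r_c(X) = card X`, then any two `X`-factorizations
of a bi-infinite word that both contain every element of `X` are shift-equivalent. More generally,
this holds as soon as every element of the second factorization occurs in the first one. -/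
theorem result {A : Type*} (X : Finset (List A)) (hX : [] ∉ X)
    (hr : combRank (X : Set (List A)) = X.card) (w : ℤ → A)
    (x y : ℤ → List A) (k l : ℤ → ℤ)
    (h1 : IsFactorization (X : Set (List A)) w x k)
    (h2 : IsFactorization (X : Set (List A)) w y l) :
    ((∀ u ∈ X, ∃ i, x i = u) → (∀ u ∈ X, ∃ i, y i = u) → ShiftEq x y) ∧
      ((∀ j, ∃ i, x i = y j) → ShiftEq x y) := by
  classical
  suffices hmain : (∀ j, ∃ i, x i = y j) → ShiftEq x y from
    ⟨fun hx _ => hmain (fun j => hx _ (Finset.mem_coe.mp (h2.2 j).1)), hmain⟩
  intro hx
  have hfac : ∀ (x : ℤ → List A) (k : ℤ → ℤ) (h : IsFactorization (X : Set (List A)) w x k),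
      Fac w (fun u : {u // u ∈ X} => u.1) (fun i => ⟨x i, (h.2 i).1⟩) k := by
    intro x k h i
    have h3 := (h.2 i).2
    have h4 : k i < k (i + 1) := h.1 (by omega)
    rw [factor_eq_win] at h3
    have h5 : (x i).length = (k (i + 1) - k i).toNat := by
      rw [← h3, length_win]
    constructor
    · show k (i + 1) = k i + ((x i).length : ℤ)
      rw [h5]
      omega
    · show win w (k i) (x i).length = x i
      rw [h5, h3]
  have hne : ∀ u : {u // u ∈ X}, u.1 ≠ [] := by
    rintro ⟨u, hu⟩ h
    simp only at h
    subst h
    exact hX hu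
  obtain ⟨t, ht⟩ := shift_equiv (full_of_combRank hr) hne (hfac x k h1) (hfac y l h2)
    (fun a ha => by
      obtain ⟨j, rfl⟩ := ha
      obtain ⟨i, hi⟩ := hx j
      exact ⟨i, Subtype.ext hi⟩)
  exact ⟨t, fun i => congrArg Subtype.val (ht i)⟩

end Pool.Agent.Results.MP_e67e26_co.ShiftEquivalent
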